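import Pool.Agent.H949.DX.F6

/-!
# MP_dcd9d4_pr, Q1: an explosive colour beats a non-explosive one; the loser paints a tight number

The configuration model on the `n + 1` vertices `Fin (n + 1)`: the degrees `d` are independent with
law `μD` (law `Measure.pi fun _ : Fin (n + 1) => μD`), and `fixParity d` adds one half-edge to the
last vertex if the sum is odd. `cmLaw2 κ (fixParity d)` is the law of the uniform pairing of the
half-edges (`Mt`: involutions without fixed points), of the independent pairs (red length, blue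
length) with law `κ` carried by the edges (an edge is a pair `s(h, h')` of half-edges), and of the
ordered pair (red source, blue source), uniform among the pairs of distinct vertices. `PP μD κ n E`
is the probability of the event `E`.

* `Causal vtx σ (len ω) a b t col` says that `t`, `col` are the colouring times and final colours
  of the competition for some way of breaking ties: a vertex takes the colour that reaches it
  first, keeps it and transmits only that colour; red crosses the edge `e` in time `(ω e).1`, blue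
  in time `(ω e).2`; and every coloured vertex that is not a source has got its colour from a
  vertex coloured before it (this matters only for edges of length zero). The theorem covers every
  rule for breaking ties, in particular fair coins.
* `someOutcome P d`: for some outcome the numbers `r`, `b` of red and blue vertices satisfy `P r b`.
* `everyOutcome P d`: for every outcome the numbers `r`, `b` of red and blue vertices satisfy
  `P r b`.

`κ` is any law on `ℝ × ℝ` with marginals `μR` and `μB`; the model of the problem, in which the red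
and blue lengths of an edge are independent, is `κ = μR.prod μB`.
-/

open MeasureTheory Finset Filter Topology
open scoped ENNReal

namespace Pool.Agent.Results.MP_dcd9d4_pr.ExplosiveBeatsNonExplosive

open Pool.Agent.H949.CM Pool.Agent.H949.CX Pool.Agent.H949.DX

/-- `P(D > x) = L(x) x ^ (-(τ - 1))` for all large `x`, where `L` is slowly varying at infinity. -/
def PowerTail (μD : Measure ℕ) (τ : ℝ) : Prop :=
  ∃ L : ℝ → ℝ, (∀ a : ℝ, 0 < a → Tendsto (fun x => L (a * x) / L x) atTop (𝓝 1)) ∧
    ∀ᶠ x : ℝ in atTop, μD.real {k : ℕ | x < (k : ℝ)} = L x * x ^ (-(τ - 1))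

/-- `ρ` is the size-biased law `P(D* = k) = (k + 1) P(D = k + 1) / E[D]`. -/
def IsSizeBiased (μD ρ : Measure ℕ) : Prop :=
  ∀ k : ℕ, ρ.real {k} = ((k : ℝ) + 1) * μD.real {k + 1} / ∫ j, (j : ℝ) ∂μD

/-- The branching process with offspring law `ρ0` of the root, offspring law `ρ` of the other
individuals and edge lengths of law `μ` is explosive: with positive probability infinitely many
individuals are born before some finite time. -/
def IsExplosive (ρ0 ρ : Measure ℕ) (μ : Measure ℝ) [IsProbabilityMeasure ρ0]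
    [IsProbabilityMeasure ρ] [IsProbabilityMeasure μ] : Prop :=
  0 < bpLaw ρ0 ρ μ {ω | ∃ t : ℝ, {u | Lives ω u ∧ birth ω u ≤ t}.Infinite}

/-- For some outcome of the competition the numbers `r` of red vertices and `b` of blue vertices
satisfy `P r b`. -/
def someOutcome (P : ℕ → ℕ → Prop) {n : ℕ} (d : Fin (n + 1) → ℕ) : Set (Conf d) :=
  {x | ∃ (t : Fin (n + 1) → ℝ≥0∞) (col : Fin (n + 1) → Option Bool),
    Causal vtx x.1 (len x.2.1) x.2.2.1 x.2.2.2 t col ∧
      P (univ.filter (fun v => col v = some true)).card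
        (univ.filter (fun v => col v = some false)).card}

/-- For every outcome of the competition the numbers `r` of red vertices and `b` of blue vertices
satisfy `P r b`. -/
def everyOutcome (P : ℕ → ℕ → Prop) {n : ℕ} (d : Fin (n + 1) → ℕ) : Set (Conf d) :=
  {x | ∀ (t : Fin (n + 1) → ℝ≥0∞) (col : Fin (n + 1) → Option Bool),
    Causal vtx x.1 (len x.2.1) x.2.2.1 x.2.2.2 t col →
      P (univ.filter (fun v => col v = some true)).card
        (univ.filter (fun v => col v = some false)).card}

theorem explosive_iff (ρ0 ρ : Measure ℕ) (μ : Measure ℝ) [IsProbabilityMeasure ρ0]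
    [IsProbabilityMeasure ρ] [IsProbabilityMeasure μ] :
    IsExplosive ρ0 ρ μ ↔ Explosive ρ0 ρ μ := by
  constructor
  · intro h
    by_contra hcon
    have h0 : ∀ n : ℕ, bpLaw ρ0 ρ μ {ω | {u | Lives ω u ∧ birth ω u ≤ (n : ℝ)}.Infinite} = 0 := by
      intro n
      by_contra hn
      exact hcon ⟨n, pos_iff_ne_zero.2 hn⟩
    have h1 : bpLaw ρ0 ρ μ {ω | ∃ t : ℝ, {u | Lives ω u ∧ birth ω u ≤ t}.Infinite} = 0 := by
      refine measure_mono_null ?_ (measure_iUnion_null h0)
      rintro ω ⟨t, ht⟩
      obtain ⟨n, hn⟩ := exists_nat_ge t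
      refine Set.mem_iUnion.2 ⟨n, ?_⟩
      exact ht.mono (fun u hu => ⟨hu.1, le_trans hu.2 hn⟩)
    unfold IsExplosive at h
    rw [h1] at h
    exact lt_irrefl _ h
  · rintro ⟨t, ht⟩
    refine lt_of_lt_of_le ht (measure_mono ?_)
    intro ω hω
    exact ⟨t, hω⟩

theorem slowVar {μD : Measure ℕ} {L : ℝ → ℝ} {τ : ℝ}
    (hL : ∀ a : ℝ, 0 < a → Tendsto (fun x => L (a * x) / L x) atTop (𝓝 1))
    (ht : ∀ᶠ x : ℝ in atTop, μD.real {k : ℕ | x < (k : ℝ)} = L x * x ^ (-(τ - 1))) :
    SlowVar L := by
  refine ⟨?_, hL⟩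
  have h1 : ∀ᶠ x : ℝ in atTop, L (1 * x) / L x ≠ 0 :=
    (hL 1 one_pos).eventually_ne one_ne_zero
  filter_upwards [h1, ht, eventually_gt_atTop (0 : ℝ)] with x h2 h3 h4
  have h5 : L x ≠ 0 := by
    intro h6
    exact h2 (by rw [h6, div_zero])
  have h6 : 0 < x ^ (-(τ - 1)) := Real.rpow_pos_of_pos h4 _
  have h7 : 0 ≤ L x * x ^ (-(τ - 1)) := by rw [← h3]; exact measureReal_nonneg
  exact lt_of_le_of_ne (nonneg_of_mul_nonneg_left h7 h6) (Ne.symm h5)

theorem PP_mono (μD : Measure ℕ) [IsProbabilityMeasure μD] (κ : Measure (ℝ × ℝ))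
    [IsProbabilityMeasure κ] (n : ℕ) {E F : ∀ d : Fin (n + 1) → ℕ, Set (Conf d)}
    (h : ∀ d, E d ⊆ F d) : PP μD κ n E ≤ PP μD κ n F := by
  unfold PP
  exact lintegral_mono (fun d => measure_mono (h _))

theorem PP_le_one (μD : Measure ℕ) [IsProbabilityMeasure μD] (κ : Measure (ℝ × ℝ))
    [IsProbabilityMeasure κ] (n : ℕ) (E : ∀ d : Fin (n + 1) → ℕ, Set (Conf d)) :
    PP μD κ n E ≤ 1 := by
  unfold PP
  calc _ ≤ ∫⁻ _, (1 : ℝ≥0∞) ∂(Measure.pi fun _ : Fin (n + 1) => μD) :=
        lintegral_mono (fun d => cmLaw2_le_one κ _ _)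
    _ = 1 := by rw [lintegral_one, measure_univ]

theorem PP_compl (μD : Measure ℕ) [IsProbabilityMeasure μD] (κ : Measure (ℝ × ℝ))
    [IsProbabilityMeasure κ] {n : ℕ} (hn : 1 ≤ n) (P : ℕ → ℕ → Prop) :
    1 ≤ PP μD κ n (everyOutcome P) + PP μD κ n (someOutcome (fun r b => ¬ P r b)) := by
  unfold PP
  rw [← lintegral_add_left (fun s _ => MeasurableSet.of_discrete)]
  calc (1 : ℝ≥0∞) = ∫⁻ _, (1 : ℝ≥0∞) ∂(Measure.pi fun _ : Fin (n + 1) => μD) := by
        rw [lintegral_one, measure_univ]
    _ ≤ _ := by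
        apply lintegral_mono
        intro d
        have hpr := cmLaw2_prob hn κ _ (even_fixParity d)
        have h1 : everyOutcome P (fixParity d) ∪ someOutcome (fun r b => ¬ P r b) (fixParity d) =
            Set.univ := by
          rw [Set.eq_univ_iff_forall]
          intro x
          by_cases hx : x ∈ everyOutcome P (fixParity d)
          · exact Or.inl hx
          · refine Or.inr ?_
            by_contra hcon
            apply hx
            intro t col hc
            by_contra hP
            exact hcon ⟨t, col, hc, hP⟩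
        calc (1 : ℝ≥0∞) = cmLaw2 κ (fixParity d) Set.univ := measure_univ.symm
          _ ≤ _ := by rw [← h1]; exact measure_union_le _ _

/-- **Q1 holds.** If red is explosive and blue is not, then with high probability red paints more
vertices than blue, and the number of blue vertices is tight; this holds for every rule for
breaking ties and for every joint law of the two lengths of an edge. -/
theorem result (μD : Measure ℕ) [IsProbabilityMeasure μD] (τ : ℝ) (hτ2 : 2 < τ) (hτ3 : τ < 3)
    (hD : PowerTail μD τ) (hD2 : μD {k : ℕ | 2 ≤ k} = 1)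
    (ρ : Measure ℕ) [IsProbabilityMeasure ρ] (hρ : IsSizeBiased μD ρ)
    (μR μB : Measure ℝ) [IsProbabilityMeasure μR] [IsProbabilityMeasure μB]
    (hR0 : μR (Set.Iio 0) = 0) (hB0 : μB (Set.Iio 0) = 0)
    (hR : IsExplosive μD ρ μR) (hB : ¬ IsExplosive μD ρ μB)
    (κ : Measure (ℝ × ℝ)) (hκR : κ.map Prod.fst = μR) (hκB : κ.map Prod.snd = μB) :
    (∀ n : ℕ, 1 ≤ n → ∀ d : Fin (n + 1) → ℕ, IsProbabilityMeasure (cmLaw2 κ (fixParity d))) ∧
    (∀ (n : ℕ) (d : Fin (n + 1) → ℕ) (x : Conf d),
      ∃ t col, Causal vtx x.1 (len x.2.1) x.2.2.1 x.2.2.2 t col) ∧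
    Tendsto (fun n : ℕ => PP μD κ n (everyOutcome fun r b => b < r)) atTop (𝓝 1) ∧
    Tendsto (fun n : ℕ => PP μD κ n (someOutcome fun r b => ¬ b < r)) atTop (𝓝 0) ∧
    (∀ ε : ℝ, 0 < ε → ∃ K : ℕ, ∀ n : ℕ, 1 ≤ n →
      PP μD κ n (someOutcome fun _ b => K < b) < ENNReal.ofReal ε) ∧
    (∀ K : ℕ, Tendsto (fun n : ℕ => PP μD κ n (someOutcome fun r _ => r ≤ K)) atTop (𝓝 0)) := by
  have hκp : IsProbabilityMeasure κ := by
    constructor
    have h1 : κ.map Prod.fst Set.univ = 1 := by rw [hκR]; exact measure_univ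
    rw [Measure.map_apply measurable_fst MeasurableSet.univ, Set.preimage_univ] at h1
    exact h1
  subst hκR
  subst hκB
  have hκ1 : κ {w | w.1 < 0} = 0 := by
    rw [Measure.map_apply measurable_fst measurableSet_Iio] at hR0
    exact hR0
  have hκ2 : κ {w | w.2 < 0} = 0 := by
    rw [Measure.map_apply measurable_snd measurableSet_Iio] at hB0
    exact hB0
  have hD2' : μD {k | k < 2} = 0 := by
    have h1 : {k : ℕ | k < 2} = {k : ℕ | 2 ≤ k}ᶜ := by
      ext k
      simp only [Set.mem_ofPred_eq, Set.mem_compl_iff, not_le]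
    rw [h1]
    exact (prob_compl_eq_zero_iff MeasurableSet.of_discrete).2 hD2
  obtain ⟨L, hL, ht⟩ := hD
  have hρ' : ∀ k : ℕ, ρ {k} =
      ENNReal.ofReal (((k : ℝ) + 1) * μD.real {k + 1} / ∫ j, (j : ℝ) ∂μD) := by
    intro k
    rw [← hρ k, ofReal_measureReal]
  have hR' : Explosive μD ρ κ.fst := (explosive_iff _ _ _).1 hR
  have hB' : ¬ Explosive μD ρ κ.snd := fun h => hB ((explosive_iff _ _ _).2 h)
  have key := fun ε (hε : (0 : ℝ) < ε) => main_expl μD ρ κ hτ2 hτ3 (slowVar hL ht) ht hD2' hρ'
    hκ1 hκ2 hR' hB' hε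
  -- the red number tends to infinity
  have hred : ∀ K : ℕ, Tendsto (fun n : ℕ => PP μD κ n (someOutcome fun r _ => r ≤ K)) atTop
      (𝓝 0) := by
    intro K
    rw [ENNReal.tendsto_nhds_zero]
    intro δ hδ
    obtain ⟨δ1, hδ1, hδ1'⟩ : ∃ δ1 : ℝ, 0 < δ1 ∧ ENNReal.ofReal δ1 ≤ δ := by
      refine ⟨(min δ 1).toReal, ENNReal.toReal_pos ?_ ?_, ?_⟩
      · exact (lt_min hδ (by norm_num)).ne'
      · exact ne_top_of_le_ne_top ENNReal.one_ne_top (min_le_right _ _)
      · rw [ENNReal.ofReal_toReal (ne_top_of_le_ne_top ENNReal.one_ne_top (min_le_right _ _))]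
        exact min_le_left _ _
    obtain ⟨Kc, hKc⟩ := key δ1 hδ1
    filter_upwards [hKc K] with n hn
    refine le_trans (le_trans (PP_mono μD κ n ?_) hn) hδ1'
    rintro d x ⟨t, col, hc, hP⟩
    exact ⟨t, col, hc, fun h => by omega⟩
  have hsome : Tendsto (fun n : ℕ => PP μD κ n (someOutcome fun r b => ¬ b < r)) atTop (𝓝 0) := by
    rw [ENNReal.tendsto_nhds_zero]
    intro δ hδ
    obtain ⟨δ1, hδ1, hδ1'⟩ : ∃ δ1 : ℝ, 0 < δ1 ∧ ENNReal.ofReal δ1 ≤ δ := by
      refine ⟨(min δ 1).toReal, ENNReal.toReal_pos ?_ ?_, ?_⟩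
      · exact (lt_min hδ (by norm_num)).ne'
      · exact ne_top_of_le_ne_top ENNReal.one_ne_top (min_le_right _ _)
      · rw [ENNReal.ofReal_toReal (ne_top_of_le_ne_top ENNReal.one_ne_top (min_le_right _ _))]
        exact min_le_left _ _
    obtain ⟨Kc, hKc⟩ := key δ1 hδ1
    filter_upwards [hKc Kc] with n hn
    refine le_trans (le_trans (PP_mono μD κ n ?_) hn) hδ1'
    rintro d x ⟨t, col, hc, hP⟩
    exact ⟨t, col, hc, fun h => by omega⟩
  refine ⟨fun n hn d => cmLaw2_prob hn κ _ (even_fixParity d),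
    fun n d x => exists_causal vtx x.1 (len x.2.1) x.2.2.1 x.2.2.2, ?_, hsome, ?_, hred⟩
  · -- the probability that red is ahead
    have h1 : Tendsto (fun n : ℕ => 1 - PP μD κ n (someOutcome fun r b => ¬ b < r)) atTop
        (𝓝 (1 - 0)) := ENNReal.Tendsto.sub tendsto_const_nhds hsome (Or.inl ENNReal.one_ne_top)
    rw [tsub_zero] at h1
    refine tendsto_of_tendsto_of_tendsto_of_le_of_le' h1 tendsto_const_nhds ?_
      (Eventually.of_forall fun n => PP_le_one μD κ n _)
    filter_upwards [eventually_ge_atTop 1] with n hn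
    exact tsub_le_iff_right.2 (PP_compl μD κ hn _)
  · -- tightness
    intro ε hε
    obtain ⟨Kc, hKc⟩ := key (ε / 2) (by positivity)
    obtain ⟨n0, hn0⟩ := eventually_atTop.1 (hKc 0)
    refine ⟨max Kc (n0 + 1), fun n hn => ?_⟩
    have hlt : ENNReal.ofReal (ε / 2) < ENNReal.ofReal ε :=
      (ENNReal.ofReal_lt_ofReal_iff hε).2 (by linarith)
    rcases le_or_gt n0 n with h | h
    · refine lt_of_le_of_lt (le_trans (PP_mono μD κ n ?_) (hn0 n h)) hlt
      rintro d x ⟨t, col, hc, hP⟩
      refine ⟨t, col, hc, fun h => ?_⟩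
      have h1 : Kc ≤ max Kc (n0 + 1) := le_max_left _ _
      have h2 := h.1
      omega
    · refine lt_of_le_of_lt ?_ (ENNReal.ofReal_pos.2 hε)
      have h0 : ∀ d : Fin (n + 1) → ℕ,
          someOutcome (fun _ b => max Kc (n0 + 1) < b) d = ∅ := by
        intro d
        rw [Set.eq_empty_iff_forall_notMem]
        rintro x ⟨t, col, hc, hP⟩
        have h1 : (univ.filter (fun v => col v = some false)).card ≤ n + 1 := by
          refine le_trans (card_filter_le _ _) ?_
          rw [Finset.card_univ, Fintype.card_fin]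
        have h2 : n0 + 1 ≤ max Kc (n0 + 1) := le_max_right _ _
        omega
      unfold PP
      simp only [h0, measure_empty, lintegral_zero, le_refl]

end Pool.Agent.Results.MP_dcd9d4_pr.ExplosiveBeatsNonExplosive
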